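import Pool.Agent.Lib.MP_edb5be_nt.PD.Iface2
import Pool.Agent.Lib.MP_edb5be_nt.PD.H57.Mean
import Pool.Agent.Lib.MP_edb5be_nt.PD.H57.Comp
import Pool.Agent.Lib.MP_edb5be_nt.EX.H30.SumP

/-!
Project PD (MP_edb5be_nt), module LIFT: the average over the last digit (helper30).
-/

set_option autoImplicit false

namespace Pool.Agent.Lib.MP_edb5be_nt.PD.H30

open Finset Pool.Agent.Lib.MP_edb5be_nt.EX

theorem mem_bw (hW : WordsStatement) (m b : ℕ) (u : List ℕ) :
    u ∈ Bw m b ↔ u.length = m ∧ (∀ a ∈ u, 1 ≤ a) ∧ u.sum = b := by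
  unfold Bw
  rw [mem_filter, hW.1]
  constructor
  · rintro ⟨⟨h1, h2⟩, h3⟩
    exact ⟨h1, fun a ha => (h2 a ha).1, h3⟩
  · rintro ⟨h1, h2, h3⟩
    refine ⟨⟨h1, fun a ha => ⟨h2 a ha, ?_⟩⟩, h3⟩
    rw [← h3]
    exact List.single_le_sum (fun _ _ => Nat.zero_le _) a ha

theorem bw_succ (hW : WordsStatement) (k s : ℕ) :
    Bw (k + 1) s = (Icc 1 s).biUnion fun a => cat (Bw k (s - a)) {[a]} := by
  ext u
  rw [mem_bw hW, mem_biUnion]
  constructor
  · rintro ⟨h1, h2, h3⟩
    have hne : u ≠ [] := by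
      intro h
      rw [h] at h1
      simp at h1
    have hu : u.dropLast ++ [u.getLast hne] = u := List.dropLast_append_getLast hne
    have hs : u.dropLast.sum + u.getLast hne = s := by
      have := congrArg List.sum hu
      rw [List.sum_append, h3] at this
      simpa using this
    have hl : 1 ≤ u.getLast hne := h2 _ (List.getLast_mem hne)
    refine ⟨u.getLast hne, mem_Icc.2 ⟨hl, by omega⟩, ?_⟩
    unfold cat
    rw [mem_image]
    refine ⟨(u.dropLast, [u.getLast hne]), mem_product.2 ⟨?_, mem_singleton_self _⟩, hu⟩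
    rw [mem_bw hW]
    refine ⟨by rw [List.length_dropLast, h1]; rfl, fun a ha => h2 a (List.mem_of_mem_dropLast ha), ?_⟩
    show u.dropLast.sum = s - u.getLast hne
    omega
  · rintro ⟨a, ha, hu⟩
    have ha' := mem_Icc.1 ha
    unfold cat at hu
    obtain ⟨⟨v, w⟩, hp, rfl⟩ := mem_image.1 hu
    obtain ⟨hv, hw⟩ := mem_product.1 hp
    have hw' : w = [a] := mem_singleton.1 hw
    have hv' := (mem_bw hW _ _ _).1 hv
    subst hw'
    refine ⟨by simp [hv'.1], ?_, ?_⟩
    · intro b hb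
      rcases List.mem_append.1 hb with h | h
      · exact hv'.2.1 b h
      · rw [List.mem_singleton.1 h]; exact ha'.1
    · show (v ++ [a]).sum = s
      rw [List.sum_append, hv'.2.2]
      simp
      omega

theorem gw_succ (hW : WordsStatement) (k s : ℕ) (z : ℤ) :
    Gw (k + 1) s z =
      ∑ a ∈ Icc 1 s, su (Bw k (s - a)) (su {[a]} (fun _ => 1)) z := by
  have h0 : ∀ a ∈ Icc 1 s, su (Bw k (s - a)) (su {[a]} (fun _ => 1)) z =
      su (cat (Bw k (s - a)) {[a]}) (fun _ => 1) z := by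
    intro a _
    refine (H57.comp hW k 1 (Bw k (s - a)) {[a]} (fun _ => 1) z ?_ ?_).symm
    · intro u hu
      exact ((mem_bw hW _ _ _).1 hu).1
    · intro v hv
      rw [mem_singleton.1 hv]
      rfl
  rw [sum_congr rfl h0]
  unfold Gw
  rw [bw_succ hW]
  unfold su
  simp only [sum_filter]
  rw [sum_biUnion]
  intro a _ b _ hab
  rw [Function.onFun, disjoint_left]
  intro u h1 h2
  apply hab
  unfold cat at h1 h2
  obtain ⟨⟨v, w⟩, hp, rfl⟩ := mem_image.1 h1
  obtain ⟨⟨v', w'⟩, hp', e⟩ := mem_image.1 h2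
  have hw : w = [a] := mem_singleton.1 (mem_product.1 hp).2
  have hw' : w' = [b] := mem_singleton.1 (mem_product.1 hp').2
  have e' : v' ++ [b] = v ++ [a] := by rw [← hw, ← hw']; exact e
  have := (List.append_inj' e' rfl).2
  simpa using this.symm

/-- one letter: the sum over three consecutive digits -/
theorem one_letter (a : ℕ) (w e : ℤ) (he : IsCoprime e (3 : ℤ)) :
    ∑ i ∈ range 3, su {[a]} (fun _ => 1) (w + e * i) = 3 * (1 / 2 ^ a) := by
  have hm := H57.mean EX.H30.sumP 1 0 {[a]} (fun _ => (1 : ℝ)) (by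
    intro u hu
    rw [mem_singleton.1 hu]
    rfl) (fun _ => rfl)
  have h1 : ∑ y ∈ range 3, su {[a]} (fun _ => 1) (y : ℤ) = 3 * (1 / 2 ^ a) := by
    have := hm.2
    simp only [Nat.add_zero, pow_one, pow_zero, range_one, sum_singleton, mul_one] at this
    rw [this]
    unfold pr
    simp
  have h2 := EX.H30.sumP.1 3 (su {[a]} (fun _ => 1)) w e (by norm_num) (fun x => by
    have := hm.1 x
    simpa using this) (by exact_mod_cast he)
  exact h2.trans h1

theorem su_lift (k : ℕ) (U : Finset (List ℕ)) (hU : ∀ u ∈ U, u.length = k) (a : ℕ) (z : ℤ) :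
    su U (su {[a]} (fun _ => 1)) z + su U (su {[a]} (fun _ => 1)) (z + 3 ^ k) +
      su U (su {[a]} (fun _ => 1)) (z + 2 * 3 ^ k) = 3 * (1 / 2 ^ a * su U (fun _ => 1) z) := by
  have e0 : z = z + 3 ^ k * 0 := by ring
  have e1 : z + 3 ^ k = z + 3 ^ k * 1 := by ring
  have e2 : z + 2 * 3 ^ k = z + 3 ^ k * 2 := by ring
  have hsum : ∀ x : ℤ, su U (su {[a]} (fun _ => 1)) (z + 3 ^ k * x) =
      ∑ u ∈ U, if Ad z u then wt u * su {[a]} (fun _ => 1) (zz z u + 2 ^ u.sum * x) else 0 := by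
    intro x
    unfold su
    rw [sum_filter]
    refine sum_congr rfl fun u hu => ?_
    have hu' := hU u hu
    have e : z + 3 ^ k * x = z + 3 ^ u.length * x := by rw [hu']
    rw [e]
    simp only [H57.ad_add, H57.zz_add]
  have hz : su U (fun _ => (1 : ℝ)) z = ∑ u ∈ U, if Ad z u then wt u * 1 else 0 := by
    unfold su
    rw [sum_filter]
  have s0 := hsum 0
  have s1 := hsum 1
  have s2 := hsum 2
  rw [← e0] at s0
  rw [← e1] at s1
  rw [← e2] at s2
  rw [s0, s1, s2, hz, ← sum_add_distrib, ← sum_add_distrib, mul_sum, mul_sum]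
  refine sum_congr rfl fun u hu => ?_
  by_cases h : Ad z u
  · simp only [if_pos h]
    have hc : IsCoprime ((2 : ℤ) ^ u.sum) (3 : ℤ) :=
      IsCoprime.pow_left (by rw [Int.isCoprime_iff_gcd_eq_one]; rfl)
    have h3 := one_letter a (zz z u) (2 ^ u.sum) hc
    rw [sum_range_succ, sum_range_succ, sum_range_one] at h3
    push_cast at h3
    rw [← mul_add, ← mul_add, h3]
    ring
  · simp only [if_neg h]
    ring

/-- LIFT -/
theorem lift (hW : WordsStatement) : LiftStatement := by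
  intro k s z
  rw [gw_succ hW, gw_succ hW, gw_succ hW, ← sum_add_distrib, ← sum_add_distrib, div_eq_iff (by norm_num),
    sum_mul]
  refine sum_congr rfl fun a _ => ?_
  rw [su_lift k (Bw k (s - a)) (fun u hu => ((mem_bw hW _ _ _).1 hu).1) a z]
  unfold Gw
  ring

end Pool.Agent.Lib.MP_edb5be_nt.PD.H30
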